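import Pool.Agent.X260.LR.Main

/-! Finitely generated virtually free groups have property (LR). -/

set_option autoImplicit false

namespace Pool.Agent.Results.MP_a112e0_al.FgVirtuallyFree

/-- Let `G` be a finitely generated group with a free subgroup of finite index. Then every finitely
generated subgroup `H` of `G` is a virtual retract of `G`: some finite index subgroup `K` of `G`
contains `H` and has a homomorphism with values in `H` which is the identity on `H`. -/
theorem result {G : Type} [Group G] (hG : Group.FG G)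
    (hvf : ∃ F : Subgroup G, F.FiniteIndex ∧ IsFreeGroup F) (H : Subgroup G) (hH : H.FG) :
    ∃ K : Subgroup G, K.FiniteIndex ∧ H ≤ K ∧
      ∃ ρ : K →* G, (∀ k : K, ρ k ∈ H) ∧ ∀ h : G, ∀ hk : h ∈ K, h ∈ H → ρ ⟨h, hk⟩ = h := by
  obtain ⟨F, hF, hfree⟩ := hvf
  obtain ⟨K, hK, hHK, ρ, hρ⟩ := Pool.Agent.X260.LR.lr_fg hG F hF hfree H hH
  refine ⟨K, hK, hHK, H.subtype.comp ρ, fun k => (ρ k).2, fun h hk hh => ?_⟩
  exact congrArg Subtype.val (hρ ⟨h, hh⟩)

end Pool.Agent.Results.MP_a112e0_al.FgVirtuallyFree
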